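import Pool.Agent.TH640B.Data.FH01

/-!
Certificate data (generated).
-/

set_option maxRecDepth 100000

namespace Pool.Agent.TH640B.Data

open Pool.Agent.TH640B

/-- collapses -/
noncomputable def oH01 : List CS := csL 71
  0x98a0b84840b80000000000000005101689081680000000000000000002d26082d0000000000000016c506c4c906c0000000000000000000b81820b8000000000000005ce80e03240e00000000000000000001c58081c000000000000000e35042b09042000000000000002d480b89a0008000000000000000000010104010000000000000000000165e081600000000000000012f02c05001200000000000000025e0249920240000000000000000001b23041b000000000000000d9202e468031000000000000000000062981062000000000000000000084c020840000000000000000000b04040b0000000000000005a202d08802a0000000000000000000540810540000000000000016300842200440000000000000000000899040880000000000000009a82d02800f00000000000000150905a090056000000000000000f040ac0a0038000000000000005c4c010340018000000000000000dd01c26801a0000000000000000000223880200000000000000010880a87200b0000000000000001c1015014006800000000000000b628366a803a0000000000000016450743900720000000000000009740697a00780000000000000000001cb3201b800000000000000b1983708802800000000000000000001c1c80000000000000000000480083a0004000000000000002060088e400900000000000000070c02106801b00000000000000000002c80802a000000000000000d400540a004c000000000000002a900b20400b80000000000000045201630801400000000000000093a04239004000000000000000177407902007c000000000000006ccc1ba3401c000000000000000d930312680300000000000000000af0121d000e0000000000000000000b95100c80000000000000000001940201a0000000000000000000340c4023000000000000000000046fc80480000000000000000000d1f100d4000000000000006afc123e40130000000000000008df8245480250000000000000017230620d005e0000000000000001540c83a00180000000000000054cc14024013800000000000000c5f0354c8033000000000000000000000c8801600000000000000076402d7a00300000000000000066fc132640110000000000000008c38060c8005000000000000000000038d8803200000000000000000006479006000000000000000308c178f400200000000000000079001f26801d00000000000000000000e20801000000000000000000002181002800000000000000000006c7201d800000000000000000038004029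

/-- edges of the graph -/
noncomputable def eH01 : List (Nat × Nat) :=
    [(9007199254741504, 2), (68719477248, 9), (9007267974217728, 22), (288230444871188480, 28),
    (297237575406452736, 33), (295156912378607566848, 45), (590295810427425128448, 46),
    (885443715538058477568, 54)]

/-- cells of the graph -/
noncomputable def cH01 : List Nat :=
    [9007199254741504, 68719477248, 9007267974217728, 288230444871188480, 297237575406452736,
    295156912378607566848, 590295810427425128448, 885443715538058477568, 512, 68719476736,
    9007199254740992, 288230376151711744, 295147905179352825856, 590295810358705651712]

theorem coH01 : collOK 72 73 60 fH01 eH01 oH01 = true := by decide +kernel

theorem ltH01 : ltOK 72 (mapL Prod.fst eH01) = true := by decide +kernel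

theorem gkH01 : grOK (mapL Prod.fst eH01) cH01 = true := by decide +kernel

theorem grH01 : graphOK 72 3 512
    [(9007199254741504, 512), (9007199254740992, 9007199254741504), (68719477248, 512), (68719476736,
    68719477248), (9007267974217728, 9007199254740992), (297237575406452736, 9007199254740992),
    (288230376151711744, 297237575406452736), (295156912378607566848, 9007199254740992),
    (295147905179352825856, 295156912378607566848), (288230444871188480, 68719476736),
    (590295810427425128448, 68719476736), (590295810358705651712, 590295810427425128448),
    (885443715538058477568, 295147905179352825856)]
    cH01 = true := by decide +kernel

end Pool.Agent.TH640B.Data
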