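import Pool.Agent.TH640B.Data.FH02

/-!
Certificate data (generated).
-/

set_option maxRecDepth 100000

namespace Pool.Agent.TH640B.Data

open Pool.Agent.TH640B

/-- collapses -/
noncomputable def oH02 : List CS := csL 86
  0x104c148e0814800000000000000a4202d26482d0000000000000016ba0521020520000000000000000000296020280000000000000014e817ac241780000000000000000000a1e080a00000000000000052302a3c902a0000000000000000000bda820bc0000000000000052d41793401680000000000000000002d40082d0000000000000016af01c80901c000000000000000000038082038000000000000001c1024012424000000000000000a518302648300000000000000000000140c80100000000000000008260a41a00a000000000000000520c143a2414000000000000000000015600815000000000000000000060fc1060000000000000000000122382120000000000000002afc1830401b80000000000000000003754083700000000000000053002a1100280000000000000048600517a00700000000000000000000e09040e000000000000000c150371c803200000000000000000006114808200000000000000328a10552010c0000000000000000000e02200600000000000000031801c04801b00000000000000000002a98802c00000000000000167e0dd3200d00000000000000060981a13401880000000000000070781412801000000000000000082302a25002200000000000000328a10d1a00f8000000000000002cfc1a24401a80000000000000000001b0e401a000000000000000d090361d001e0000000000000011540dc4a00640000000000000028bc0e24400e80000000000000066283e12803d0000000000000004090200d00020000000000000000000a0c100a8000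0000000000054b0041840048000000000000000000370c4036000000000000001b2406a190066000000000000002d480bd0200b8000000000000001ea80c87400c000000000000000a4c02a1c802b0000000000000018c5082990084000000000000000c8e12012012400000000000000028c08834003000000000000000301801048000000000000000001b0703019002e0000000000000017480cc3a004800000000000000004c1402400100000000000000120104902804700000000000000034507a0d007800000000000000021c0a412001000000000000000088c1802400380000000000000121000e08800d00000000000000000007ccc807e0000000000000007660fc12008c000000000000000000213e20220000000000000000000448040460000000000000021c008ca9008a000000000000000948028c2002c00000000000000004c010940018000000000000000000038840380000000000000003c40708d007400000000000000000004841004c0000000000000026bc0e88400f000000000000000000023004022000000000000001144074010072000000000000000000069910080000000000000008ec81001400f80000000000000039a82d028024000000000000000233046110042000000000000000b6a0bcc200940000000000000000000536201380000000000000021b0270680260000000000000014b505a390058000000000000002c8a105aa01000000000000000045101cb3401d80000000000000000002b324005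

/-- edges of the graph -/
noncomputable def eH02 : List (Nat × Nat) :=
    [(288230376151728128, 8), (68719476752, 10), (140737488879616, 14), (103079215104, 21),
    (288230376152236032, 41), (16400, 45), (288230444871188480, 47), (34359754752, 48),
    (140737488355344, 72)]

/-- cells of the graph -/
noncomputable def cH02 : List Nat :=
    [288230376151728128, 68719476752, 140737488879616, 103079215104, 288230376152236032, 16400,
    288230444871188480, 34359754752, 140737488355344, 16, 16384, 524288, 34359738368, 68719476736,
    140737488355328, 288230376151711744]

theorem coH02 : collOK 72 73 74 fH02 eH02 oH02 = true := by decide +kernel

theorem ltH02 : ltOK 72 (mapL Prod.fst eH02) = true := by decide +kernel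

theorem gkH02 : grOK (mapL Prod.fst eH02) cH02 = true := by decide +kernel

theorem grH02 : graphOK 72 3 16
    [(68719476752, 16), (68719476736, 68719476752), (16400, 16), (16384, 16400), (140737488355344, 16),
    (140737488355328, 140737488355344), (103079215104, 68719476736), (34359738368, 103079215104),
    (288230444871188480, 68719476736), (288230376151711744, 288230444871188480), (288230376151728128,
    16384), (34359754752, 16384), (140737488879616, 140737488355328), (524288, 140737488879616),
    (288230376152236032, 288230376151711744)]
    cH02 = true := by decide +kernel

end Pool.Agent.TH640B.Data
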