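import Pool.Agent.TH640B.Data.FP0

/-!
Certificate data (generated).
-/

set_option maxRecDepth 100000

namespace Pool.Agent.TH640B.Data

open Pool.Agent.TH640B

/-- collapses -/
noncomputable def oP0 : List CS := csL 80
  0x18901018000000000000000c2604d21204c0000000000000000001c45041c00000000000000032283848803c000000000000000000078a81078000000000000003c120315120300000000000000000001e3f041e000000000000000f098387e483800000000000000000007038107000000000000000000004da8204c00000000000000000009840409800000000000000e1a8131c803500000000000000098e06a10906a0000000000000000000d62020d40000000000000071101aa34020000000000000000e220408a4840000000000000000000018c01018000000000000001360030220020000000000000000000040f04040000000000000000000135e401b0000000000000009af0364d00380000000000000008460307a00240000000000000000000e0120038000000000000001da81c0280180000000000000000000100c80020000000000000001460241a000c0000000000000036c0042f400780000000000000000000f0e401000000000000000038702005000c000000000000000000060110058000000000000002c100d82400b80000000000000031f83c60802b000000000000000b0700c09000a0000000000000013880d44a00d000000000000000024c0983400100000000000000015801004800d000000000000000000004e8803c000000000000001374079aa008c000000000000002c100b81400a8000000000000005e203404803300000000000000082a0181d00160000000000000033260d01200b40000000000000038e811af401380000000000000032283c1280370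0000000000000168e06a09005c00000000000000000009d0100980000000000000030801301400d000000000000000b9184004802f000000000000001aba0463900420000000000000000000bd9900c8000000000000005ccc1904401800000000000000000002b0c402a00000000000000150701619001400000000000000328a1019a0104000000000000002a800d04400c800000000000000000021304022000000000000000000044b080480000000000000023580912200940000000000000000001c26201c800000000000000f1303948803a000000000000000000074f8807a0000000000000000000f20100f8000000000000007b001f3e401f800000000000000e1503c1c803b00000000000000154007c190058000000000000003a600ad3200a4000000000000003cb01283401000000000000000091202530801400000000000000132404e81005000000000000000038a0dc1a00d80000000000000002b0100f400200000000000000080c02406801f00000000000000168300409000000000000000000358a101aa010800000000000000000002b2200880000000000000000001010400e000000000000000000008d8803a000000000000000000088c90048000000000000000000190020188000000000000000000158e4043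

/-- edges of the graph -/
noncomputable def eP0 : List (Nat × Nat) :=
    [(34359738880, 12), (524800, 19), (34360262656, 56)]

/-- cells of the graph -/
noncomputable def cP0 : List Nat :=
    triL 9 19 35

theorem coP0 : collOK 72 73 68 fP0 eP0 oP0 = true := by decide +kernel

theorem ltP0 : ltOK 72 (mapL Prod.fst eP0) = true := by decide +kernel

theorem gkP0 : grOK (mapL Prod.fst eP0) cP0 = true := by decide +kernel

theorem grP0 : graphOK 72 1 512
    [(524800, 512), (524288, 524800), (34359738880, 512), (34359738368, 34359738880), (34360262656,
    524288)]
    cP0 = true := by decide +kernel

end Pool.Agent.TH640B.Data
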