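import Pool.Agent.TH640B.Data.FP0
import Pool.Agent.TH640B.Data.FP1b
import Pool.Agent.TH640B.Data.FH01

/-!
Certificate data (generated).
-/

set_option maxRecDepth 100000

namespace Pool.Agent.TH640B.Data

open Pool.Agent.TH640B

/-- facets of the intersection -/
noncomputable def ji01b : List (List Nat) := jsL 68
  0x76054038c1d039103806e206e0d840d413081a025048306608840c817825044406e0c8178252031044206008840dc18022183205e205e0b840b416081682a102b05420520a0138c14827102804e206c0a0138c1682804e305a0ac138c12824046304a08805005008504a09005005203104402860800f817182003c05807901001d02a03c80840e014182102220400680a00f202002204060800d01001e4038050406c08880d0141019030202c03c04802201601c00460740a81301e024a05409807181501e02460540700d181501c01c605406807182103205060500780218120220406030058805007002302c028008c05008100a0002014018020c05006100a00a2014010008c0a00a008004802401080380110070002032050020c0200310140062028010018c068030003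

theorem i01b : interS 73 694 fP0 fP1b fH01 ji01b = true := by decide +kernel

end Pool.Agent.TH640B.Data
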