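import Pool.Agent.TH640B.Data.FP0
import Pool.Agent.TH640B.Data.FP2a
import Pool.Agent.TH640B.Data.FH02

/-!
Certificate data (generated).
-/

set_option maxRecDepth 100000

namespace Pool.Agent.TH640B.Data

open Pool.Agent.TH640B

/-- facets of the intersection -/
noncomputable def ji02a : List (List Nat) := jsL 68
  0x124240471840070207e0ec1c8c2003e07401c8118198822833104406a20860f41983202a50860f8190c2103c06a0c40b142103c06230820f8180c1e815103c02a20700b0020c1c02400400080e012000183b07208c60ec1c822183b042207401c40e002081c002000308a0d8198c1b83302a306c0cc40d41a016182e03a03460b81601d01c405a03840bc1400a182f05409404901702c05002880b015825182c052205e0a005008202f05402460b81400a182704c204a0900e80e01800cc0940e80c182401c204803440900700c006404803040900f80c182403e03406101280b1025048028018020006058094028c1001f101d0360680900f281d038203c068098c0d81a01e3032054406009080b8121015022202804040740700c006403a0680900f01a030c07c0d00f0184014020405403080500300400080280088018020003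

theorem i02a : interS 73 702 fP0 fP2a fH02 ji02a = true := by decide +kernel

end Pool.Agent.TH640B.Data
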