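import Pool.Agent.TH640B.Data.FH01
import Pool.Agent.TH640B.Data.FH02
import Pool.Agent.TH640B.Data.FS

/-!
Certificate data (generated).
-/

set_option maxRecDepth 100000

namespace Pool.Agent.TH640B.Data

open Pool.Agent.TH640B

/-- facets of the intersection -/
noncomputable def jiS : List (List Nat) := jsL 60
  0x12424047184306e20840d841041d0381840074207c0f41c8c23007104500e208803040fc03881f03d018307c0f4058c1e80a103c00e206e07c40d817002183603e206c07c0e0c1d03803c307407440ec0e081a830103406420680c040d0068071833062205e0a4118c1702a042305804c088c1602802604080ac09081682801e305a0a4078c16028102704c204a090408809811182102620400444084048810005102e0420106084018817002101f002203e060000c0f81c030014806c0d080c818101702c054604c08080b014010302c04c08007200e00e201a01c4028030803801101000e004601c0280018180002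

theorem iS : interS 73 74 fH01 fH02 fS jiS = true := by decide +kernel

end Pool.Agent.TH640B.Data
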