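import Pool.Agent.TH640B.Data.LP1a_0
import Pool.Agent.TH640B.Data.LP1a_1

/-!
Certificate data (generated).
-/

set_option maxRecDepth 100000

namespace Pool.Agent.TH640B.Data

open Pool.Agent.TH640B

theorem vmP1a : vmOK [lP1a_0, lP1a_1] fP1a = true := by decide +kernel

end Pool.Agent.TH640B.Data
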