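import Pool.Agent.TH640B.Data.LP2b_0
import Pool.Agent.TH640B.Data.LP2b_1

/-!
Certificate data (generated).
-/

set_option maxRecDepth 100000

namespace Pool.Agent.TH640B.Data

open Pool.Agent.TH640B

theorem vmP2b : vmOK [lP2b_0, lP2b_1] fP2b = true := by decide +kernel

end Pool.Agent.TH640B.Data
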