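import Pool.Agent.TH640B.Data.X1

/-!
Certificate data (generated).
-/

set_option maxRecDepth 100000

namespace Pool.Agent.TH640B.Data

open Pool.Agent.TH640B

theorem toP0 : triOK 72 9 19 35 = true := by decide +kernel

theorem hoP0 : holOK tab 9 19 35 4 = true := by decide +kernel

theorem toP1a : triOK 72 3 12 45 = true := by decide +kernel

theorem hoP1a : holOK tab 3 12 45 3 = true := by decide +kernel

theorem toP2a : triOK 72 7 36 37 = true := by decide +kernel

theorem hoP2a : holOK tab 7 36 37 1 = true := by decide +kernel

theorem toP1b : triOK 72 12 13 45 = true := by decide +kernel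

theorem hoP1b : holOK tab 12 13 45 2 = true := by decide +kernel

theorem toP2b : triOK 72 46 50 70 = true := by decide +kernel

theorem hoP2b : holOK tab 46 50 70 2 = true := by decide +kernel

theorem bS : bdryOK rH01 rH02 fS = true := by decide +kernel

theorem sv : inMask 3279227833360509879263 fS = true := by decide +kernel

theorem nr : nearOK colA colB 3279227833360509879263 fK = true := by decide +kernel

end Pool.Agent.TH640B.Data
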