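import Mathlib
import Pool.Agent.TH640B.Asm
import Pool.Agent.TH640B.Data.X1
import Pool.Agent.TH640B.Data.X2
import Pool.Agent.TH640B.Data.GS
import Pool.Agent.TH640B.Data.MK
import Pool.Agent.TH640B.Data.MP0
import Pool.Agent.TH640B.Data.MP1a
import Pool.Agent.TH640B.Data.MP2a
import Pool.Agent.TH640B.Data.MP1b
import Pool.Agent.TH640B.Data.MP2b
import Pool.Agent.TH640B.Data.MH01
import Pool.Agent.TH640B.Data.MH02
import Pool.Agent.TH640B.Data.MH12a
import Pool.Agent.TH640B.Data.MH12b
import Pool.Agent.TH640B.Data.MS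
import Pool.Agent.TH640B.Data.CP0
import Pool.Agent.TH640B.Data.CP1a
import Pool.Agent.TH640B.Data.CP2a
import Pool.Agent.TH640B.Data.CP1b
import Pool.Agent.TH640B.Data.CP2b
import Pool.Agent.TH640B.Data.CH01
import Pool.Agent.TH640B.Data.CH02
import Pool.Agent.TH640B.Data.CH12a
import Pool.Agent.TH640B.Data.CH12b
import Pool.Agent.TH640B.Data.I01a
import Pool.Agent.TH640B.Data.I02a
import Pool.Agent.TH640B.Data.I12a
import Pool.Agent.TH640B.Data.I01b
import Pool.Agent.TH640B.Data.I02b
import Pool.Agent.TH640B.Data.I12b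
import Pool.Agent.TH640B.Data.IS

/-!
# The two trisections (generated)

Helper file.
-/

open Finset

namespace Pool.Agent.TH640B.Data

open Pool.Agent.TH640B

theorem usK : UpSpec 72 5 fK rK := upOK_sound upK

theorem usP0 : UpSpec 72 5 fP0 rP0 := upOK_sound upP0

theorem usP1a : UpSpec 72 5 fP1a rP1a := upOK_sound upP1a

theorem usP2a : UpSpec 72 5 fP2a rP2a := upOK_sound upP2a

theorem usP1b : UpSpec 72 5 fP1b rP1b := upOK_sound upP1b

theorem usP2b : UpSpec 72 5 fP2b rP2b := upOK_sound upP2b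

theorem usH01 : UpSpec 72 4 fH01 rH01 := upOK_sound upH01

theorem usH02 : UpSpec 72 4 fH02 rH02 := upOK_sound upH02

theorem usH12a : UpSpec 72 4 fH12a rH12a := upOK_sound upH12a

theorem usH12b : UpSpec 72 4 fH12b rH12b := upOK_sound upH12b

theorem usS : UpSpec 72 3 fS rS := upOK_sound upS

theorem mfK : IsManifold 4 (famT fK : Fam 72) := by
  refine manifold_of' (d := 3) (w := 73) (mF := 1474) (mB := 0)
    (by norm_num) usK (Ls := [lK_0, lK_1]) ?_ vmK
  intro l hl
  simp only [List.mem_cons, List.not_mem_nil, or_false] at hl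
  rcases hl with h | h
  · rw [h]; exact lkK_0
  · rw [h]; exact lkK_1

theorem mfP0 : IsManifold 4 (famT fP0 : Fam 72) := by
  refine manifold_of' (d := 3) (w := 73) (mF := 68) (mB := 134)
    (by norm_num) usP0 (Ls := [lP0_0]) ?_ vmP0
  intro l hl
  simp only [List.mem_cons, List.not_mem_nil, or_false] at hl
  rw [hl]; exact lkP0_0

theorem mfP1a : IsManifold 4 (famT fP1a : Fam 72) := by
  refine manifold_of' (d := 3) (w := 73) (mF := 704) (mB := 740)
    (by norm_num) usP1a (Ls := [lP1a_0, lP1a_1]) ?_ vmP1a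
  intro l hl
  simp only [List.mem_cons, List.not_mem_nil, or_false] at hl
  rcases hl with h | h
  · rw [h]; exact lkP1a_0
  · rw [h]; exact lkP1a_1

theorem mfP2a : IsManifold 4 (famT fP2a : Fam 72) := by
  refine manifold_of' (d := 3) (w := 73) (mF := 702) (mB := 754)
    (by norm_num) usP2a (Ls := [lP2a_0, lP2a_1]) ?_ vmP2a
  intro l hl
  simp only [List.mem_cons, List.not_mem_nil, or_false] at hl
  rcases hl with h | h
  · rw [h]; exact lkP2a_0
  · rw [h]; exact lkP2a_1

theorem mfP1b : IsManifold 4 (famT fP1b : Fam 72) := by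
  refine manifold_of' (d := 3) (w := 73) (mF := 694) (mB := 764)
    (by norm_num) usP1b (Ls := [lP1b_0, lP1b_1]) ?_ vmP1b
  intro l hl
  simp only [List.mem_cons, List.not_mem_nil, or_false] at hl
  rcases hl with h | h
  · rw [h]; exact lkP1b_0
  · rw [h]; exact lkP1b_1

theorem mfP2b : IsManifold 4 (famT fP2b : Fam 72) := by
  refine manifold_of' (d := 3) (w := 73) (mF := 712) (mB := 778)
    (by norm_num) usP2b (Ls := [lP2b_0, lP2b_1]) ?_ vmP2b
  intro l hl
  simp only [List.mem_cons, List.not_mem_nil, or_false] at hl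
  rcases hl with h | h
  · rw [h]; exact lkP2b_0
  · rw [h]; exact lkP2b_1

theorem mfH01 : IsManifold 3 (famT fH01 : Fam 72) := by
  refine manifold_of' (d := 2) (w := 73) (mF := 60) (mB := 74)
    (by norm_num) usH01 (Ls := [lH01_0]) ?_ vmH01
  intro l hl
  simp only [List.mem_cons, List.not_mem_nil, or_false] at hl
  rw [hl]; exact lkH01_0

theorem mfH02 : IsManifold 3 (famT fH02 : Fam 72) := by
  refine manifold_of' (d := 2) (w := 73) (mF := 74) (mB := 74)
    (by norm_num) usH02 (Ls := [lH02_0]) ?_ vmH02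
  intro l hl
  simp only [List.mem_cons, List.not_mem_nil, or_false] at hl
  rw [hl]; exact lkH02_0

theorem mfH12a : IsManifold 3 (famT fH12a : Fam 72) := by
  refine manifold_of' (d := 2) (w := 73) (mF := 680) (mB := 74)
    (by norm_num) usH12a (Ls := [lH12a_0]) ?_ vmH12a
  intro l hl
  simp only [List.mem_cons, List.not_mem_nil, or_false] at hl
  rw [hl]; exact lkH12a_0

theorem mfH12b : IsManifold 3 (famT fH12b : Fam 72) := by
  refine manifold_of' (d := 2) (w := 73) (mF := 704) (mB := 74)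
    (by norm_num) usH12b (Ls := [lH12b_0]) ?_ vmH12b
  intro l hl
  simp only [List.mem_cons, List.not_mem_nil, or_false] at hl
  rw [hl]; exact lkH12b_0

theorem mfS : IsManifold 2 (famT fS : Fam 72) := by
  refine manifold_of' (d := 1) (w := 73) (mF := 74) (mB := 0)
    (by norm_num) usS (Ls := [lS_0]) ?_ vmS
  intro l hl
  simp only [List.mem_cons, List.not_mem_nil, or_false] at hl
  rw [hl]; exact lkS_0

theorem hbP0 : IsHandlebody 4 1 (famT fP0 : Fam 72) ∧
    Relation.ReflTransGen CollapseStep (faces (famT fP0 : Fam 72)) (toFam cP0) :=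
  handle_of (by norm_num) usP0 mfP0 coP0 ltP0 gkP0 grP0

theorem hbP1a : IsHandlebody 4 1 (famT fP1a : Fam 72) ∧
    Relation.ReflTransGen CollapseStep (faces (famT fP1a : Fam 72)) (toFam cP1a) :=
  handle_of (by norm_num) usP1a mfP1a coP1a ltP1a gkP1a grP1a

theorem hbP2a : IsHandlebody 4 1 (famT fP2a : Fam 72) ∧
    Relation.ReflTransGen CollapseStep (faces (famT fP2a : Fam 72)) (toFam cP2a) :=
  handle_of (by norm_num) usP2a mfP2a coP2a ltP2a gkP2a grP2a

theorem hbP1b : IsHandlebody 4 1 (famT fP1b : Fam 72) ∧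
    Relation.ReflTransGen CollapseStep (faces (famT fP1b : Fam 72)) (toFam cP1b) :=
  handle_of (by norm_num) usP1b mfP1b coP1b ltP1b gkP1b grP1b

theorem hbP2b : IsHandlebody 4 1 (famT fP2b : Fam 72) ∧
    Relation.ReflTransGen CollapseStep (faces (famT fP2b : Fam 72)) (toFam cP2b) :=
  handle_of (by norm_num) usP2b mfP2b coP2b ltP2b gkP2b grP2b

theorem hbH01 : IsHandlebody 3 3 (famT fH01 : Fam 72) ∧
    Relation.ReflTransGen CollapseStep (faces (famT fH01 : Fam 72)) (toFam cH01) :=
  handle_of (by norm_num) usH01 mfH01 coH01 ltH01 gkH01 grH01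

theorem hbH02 : IsHandlebody 3 3 (famT fH02 : Fam 72) ∧
    Relation.ReflTransGen CollapseStep (faces (famT fH02 : Fam 72)) (toFam cH02) :=
  handle_of (by norm_num) usH02 mfH02 coH02 ltH02 gkH02 grH02

theorem hbH12a : IsHandlebody 3 3 (famT fH12a : Fam 72) ∧
    Relation.ReflTransGen CollapseStep (faces (famT fH12a : Fam 72)) (toFam cH12a) :=
  handle_of (by norm_num) usH12a mfH12a coH12a ltH12a gkH12a grH12a

theorem hbH12b : IsHandlebody 3 3 (famT fH12b : Fam 72) ∧
    Relation.ReflTransGen CollapseStep (faces (famT fH12b : Fam 72)) (toFam cH12b) :=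
  handle_of (by norm_num) usH12b mfH12b coH12b ltH12b gkH12b grH12b

theorem sfS : IsSurface 3 (famT fS : Fam 72) := surface_of usS mfS clS faS kcS euS

/-- the cocycle -/
noncomputable def hh (u v : Fin 72) : ZMod 5 := ((tab u v : ℕ) : ZMod 5)

theorem coc : IsCocycle (famT fK : Fam 72) hh := cocOK_sound coc_ok

/-- colouring of the facets -/
noncomputable def ca : Finset (Fin 72) → Fin 3 := colF fK colA

theorem pt0a : part (famT fK : Fam 72) ca 0 = famT fP0 :=
  partOK_sound (i := 0) (by norm_num) usK.bf p0a usP0.bf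

theorem pt1a : part (famT fK : Fam 72) ca 1 = famT fP1a :=
  partOK_sound (i := 1) (by norm_num) usK.bf p1a usP1a.bf

theorem pt2a : part (famT fK : Fam 72) ca 2 = famT fP2a :=
  partOK_sound (i := 2) (by norm_num) usK.bf p2a usP2a.bf

theorem tria : IsTrisection (famT fK : Fam 72) ca 3 1 ∧
    core (famT fK : Fam 72) ca = carrier (famT fK) (famT fS) :=
  trisection_of pt0a pt1a pt2a hbP0.1 hbP1a.1 hbP2a.1 hbH01.1 hbH02.1 hbH12a.1 sfS
    (interS_sound (n := 72) (by norm_num) usP0.bf usP1a.bf usH01.bf i01a) (bdryOK_sound usP0 usP1a b01a)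
    (interS_sound (n := 72) (by norm_num) usP0.bf usP2a.bf usH02.bf i02a) (bdryOK_sound usP0 usP2a b02a)
    (by rw [Finset.inter_comm]; exact interS_sound (n := 72) (by norm_num) usP2a.bf usP1a.bf usH12a.bf i12a) (bdryOK_sound usP1a usP2a b12a)
    (interS_sound (n := 72) (by norm_num) usH01.bf usH02.bf usS.bf iS) (bdryOK_sound usH01 usH02 bS)

theorem cia : ∀ i, CircLike (covP (famT fK : Fam 72) hh) (covT (famT fK : Fam 72) hh)
    (sector (famT fK) ca i) ((![4, 3, 1] : Fin 3 → ZMod 5) i) := by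
  intro i
  fin_cases i
  · exact circ_of coc pt0a (h := 4) hbP0.2 toP0 hoP0
  · exact circ_of coc pt1a (h := 3) hbP1a.2 toP1a hoP1a
  · exact circ_of coc pt2a (h := 1) hbP2a.2 toP2a hoP2a

/-- colouring of the facets -/
noncomputable def cb : Finset (Fin 72) → Fin 3 := colF fK colB

theorem pt0b : part (famT fK : Fam 72) cb 0 = famT fP0 :=
  partOK_sound (i := 0) (by norm_num) usK.bf p0b usP0.bf

theorem pt1b : part (famT fK : Fam 72) cb 1 = famT fP1b :=
  partOK_sound (i := 1) (by norm_num) usK.bf p1b usP1b.bf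

theorem pt2b : part (famT fK : Fam 72) cb 2 = famT fP2b :=
  partOK_sound (i := 2) (by norm_num) usK.bf p2b usP2b.bf

theorem trib : IsTrisection (famT fK : Fam 72) cb 3 1 ∧
    core (famT fK : Fam 72) cb = carrier (famT fK) (famT fS) :=
  trisection_of pt0b pt1b pt2b hbP0.1 hbP1b.1 hbP2b.1 hbH01.1 hbH02.1 hbH12b.1 sfS
    (interS_sound (n := 72) (by norm_num) usP0.bf usP1b.bf usH01.bf i01b) (bdryOK_sound usP0 usP1b b01b)
    (interS_sound (n := 72) (by norm_num) usP0.bf usP2b.bf usH02.bf i02b) (bdryOK_sound usP0 usP2b b02b)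
    (interS_sound (n := 72) (by norm_num) usP1b.bf usP2b.bf usH12b.bf i12b) (bdryOK_sound usP1b usP2b b12b)
    (interS_sound (n := 72) (by norm_num) usH01.bf usH02.bf usS.bf iS) (bdryOK_sound usH01 usH02 bS)

theorem cib : ∀ i, CircLike (covP (famT fK : Fam 72) hh) (covT (famT fK : Fam 72) hh)
    (sector (famT fK) cb i) ((![4, 2, 2] : Fin 3 → ZMod 5) i) := by
  intro i
  fin_cases i
  · exact circ_of coc pt0b (h := 4) hbP0.2 toP0 hoP0
  · exact circ_of coc pt1b (h := 2) hbP1b.2 toP1b hoP1b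
  · exact circ_of coc pt2b (h := 2) hbP2b.2 toP2b hoP2b

theorem near : ∃ U : Set (Body (famT fK : Fam 72)), IsOpen U ∧ core (famT fK) ca ⊆ U ∧
    ∀ i, sector (famT fK) ca i ∩ U = sector (famT fK) cb i ∩ U :=
  near_core tria.2 (nearOK_sound usK.bf sv nr)

theorem cnK : IsConn (faces (famT fK : Fam 72)) := kconnOK_sound kcK

theorem clsK : boundary (famT fK : Fam 72) = ∅ := closedOK_sound usK clK

end Pool.Agent.TH640B.Data
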