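import Pool.Agent.TH640B.Data.FS

/-!
Certificate data (generated).
-/

set_option maxRecDepth 100000

namespace Pool.Agent.TH640B.Data

open Pool.Agent.TH640B

/-- links -/
noncomputable def lS_0 : List LC := lkL 3
    [0x880059802460e81c01e00000030180,
    0x26400e38025e800040011c0393400810028e01992000800013008110046a011000526800c7000bc011309011c1001f0340600800501400080401,
    0x28e01820070280044004c800044009980388014220001c0144000c90001200220040e8013200210000109211c1d8360380640c00001400080402,
    0x26001180112800ac0048c00934009d005580089a0023c00ac0068d0036c00d60041e80118004e8032c4002280746020483d0780a41402604803c0300101800090483,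
    0x1020099803408000e000cc03af4000c0005e004720071c043300c050014800d7805308001900060008e401810068e0259a008cc00af000802484803a070098110120140180201c000a0504,
    0x48001f8020e800bf000a801870640c00680700400040206,
    0x25e01190081080002000c80389400430011200c420029000880041900460015780610801aa0062402064005900212000401b0320580a80e01a0200380001800090487,
    0x4800178010e80030004bc018702e0540a00800400040208,
    0x540001802048014500aa8030340049801880101a0001c002a004090008800c1801040fc1e03706c0380080001000070389,
    0x32001d0010880133004d402844004c0017400cca00b1402b500ccd00274001a804081082002e054074020020100007038e,
    0x460012001068003600490018304a090050060040004020f,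
    0x28a0093009408003a0008003094009a8028a02902004bc01b500481001460113001128024400e8c0409400808026a0117a0000c003a00a250004c00500021210c1f03906e0ac1401f02404005801020000b0593,
    0x1c001d00708800ac00ae801b54000c8001c004220060c01ba00cb100248009a804088013a000d400840540a41182101e0240200301400080418,
    0x300047002080100180200000030199,
    0x126005a802088013a00ad4021340057801260082200890023a00cd50006a00c2001020b01582204004808805010000703a0,
    0x1e001200126800000004c028f400018041e00002008cc020300c010068a01d980806802c400a4c0300400130024800c984107a0e41c01e01802c05006018000904a3,
    0xc01178004680098006bc00a04011300d4601032004e805a3004810036a01d0008308010f006e801234009b009740187a00210012f00a610000e00178010c8032c014e80636400440015e0183a01afc06a601c190025e0051800400c41802d05809c128220420500980c01402404007030000f07a4,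
    0x26002280448800230009000934009f8027c00d2200514003e00a902203e0660c40600b00c00060326,
    0x18a005f8030e80089003140207400e00038a015fa000fc0107002182283f0680c80700d00c0006032a,
    0x6001b00230800b5002e80298400d200374011b2000e800b6006601782d04e0981180f00c0006032c,
    0x64001800526800a0004900093400420014800d0200820023000c91000020019007268028700ac804304005800048010981b03405c0b01402604808810018000904af,
    0x5e00440020e05c0b015000000301b0,
    0x2001780204800af0001c01820360680c81800400040232,
    0x8800c700000800c500a8c030e40002001880007200008004400811000460087001001042003b0740780e81c010000703b3,
    0x28a021d0022680098002e80181400d600474018c20043802c500ee900140004c00202801240048001984001d0012600808430840bc170230440841001f018000904b5,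
    0x1e0012001068002c00490018304e0981282400400040236,
    0x600520001c8013500cb0038e400098004800c1a00260008e0040d0034000d2004268002c00490028e05e0b81682c0560a8148280140008043a,
    0x4c00228027e800c50010001bf08c1101a8330040004023e,
    0x180005500448800a60030001a4400df0038001532000a80124002181a8340660c81883000c0006033f,
    0x17c00628037e80045004fc00aa08c1141a83400400040240,
    0x26001180304800b30080802804000480026004120028c0102000001d83a0720e01b83600c00060344,
    0x6a00098071280126004f80413400070006a0184a0008c000e008250015400df00112802330088c028e400600097c029520000c0023002250007c004980212118228440861082084007e0f81e83c020000b05c5,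
    0x800410020212424047000000301c7]

theorem lkS_0 : lksOK 72 73 3 fS 74 rS 0 lS_0 = true := by decide +kernel

end Pool.Agent.TH640B.Data
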